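import Pool.Agent.helper77.MC.Spec

set_option autoImplicit false

namespace Pool.Agent.helper77.MC

open Finset Numbering

theorem SG (h1 : JC_stmt) : SG_stmt := by
  intro β _ _ t A hAt hA
  have hpos : 0 < #(prefixed t : Finset (Numbering β)) := by
    rw [card_prefixed]
    positivity
  have hposr : (0 : ℝ) < #(prefixed t : Finset (Numbering β)) := by exact_mod_cast hpos
  have hterm : ∀ s ∈ A, ((#t).choose #s : ℝ)⁻¹ =
      (#((prefixed s : Finset (Numbering β)) ∩ prefixed t) : ℝ) / #(prefixed t : Finset (Numbering β)) := by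
    intro s hs
    have h2 := h1 β s t (hAt s hs)
    have hC : (0 : ℝ) < ((#t).choose #s : ℝ) := by
      exact_mod_cast Nat.choose_pos (Finset.card_le_card (hAt s hs))
    rw [inv_eq_one_div, div_eq_div_iff hC.ne' hposr.ne', one_mul]
    exact_mod_cast h2.symm
  rw [Finset.sum_congr rfl hterm, ← Finset.sum_div, div_le_one hposr]
  have hd : ∀ s ∈ A, ∀ s' ∈ A, s ≠ s' →
      Disjoint ((prefixed s : Finset (Numbering β)) ∩ prefixed t) ((prefixed s' : Finset (Numbering β)) ∩ prefixed t) := by
    intro s hs s' hs' hne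
    have h3 : ¬ s ⊆ s' := fun h => hne (hA s hs s' hs' h)
    have h4 : ¬ s' ⊆ s := fun h => hne (hA s' hs' s hs h).symm
    exact Disjoint.mono Finset.inter_subset_left Finset.inter_subset_left (disjoint_prefixed_prefixed h3 h4)
  have h5 : #(A.biUnion fun s => (prefixed s : Finset (Numbering β)) ∩ prefixed t) =
      ∑ s ∈ A, #((prefixed s : Finset (Numbering β)) ∩ prefixed t) := Finset.card_biUnion hd
  have h6 : #(A.biUnion fun s => (prefixed s : Finset (Numbering β)) ∩ prefixed t) ≤ #(prefixed t : Finset (Numbering β)) := by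
    apply Finset.card_le_card
    intro f hf
    obtain ⟨s, _, hs⟩ := Finset.mem_biUnion.mp hf
    exact (Finset.mem_inter.mp hs).2
  rw [h5] at h6
  exact_mod_cast h6

end Pool.Agent.helper77.MC
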